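import Pool.Agent.H948.HS.Stm

set_option autoImplicit false

namespace Pool.Agent.H948.HS

open MeasureTheory ProbabilityTheory Set Filter Metric
open scoped ENNReal NNReal Topology RealInnerProductSpace

namespace Lin25

theorem part1 (m : ℕ) (f : E m) (hf : ‖f‖ = 1) : ∃ R : E m ≃ₗᵢ[ℝ] E m, R (e0 m) = f :=
  ⟨(ℝ ∙ (e0 m - f))ᗮ.reflection, Submodule.reflection_sub (by rw [norm_e0, hf])⟩

theorem part2 (m : ℕ) (η : ℝ) (hη : 0 < η) : ∃ F : Finset (E m), (∀ f ∈ F, ‖f‖ = 1) ∧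
    ∀ x : E m, ∃ f ∈ F, (1 - η) * ‖x‖ ≤ ⟪f, x⟫ := by
  have hc : IsCompact (sphere (0 : E m) 1) := isCompact_sphere _ _
  obtain ⟨F, hF1, hF2⟩ := hc.elim_nhds_subcover (fun f : E m => {x : E m | 1 - η < ⟪f, x⟫}) (by
    intro f hf
    have hf1 : ‖f‖ = 1 := by simpa using hf
    have hcont : Continuous fun x : E m => ⟪f, x⟫ := by fun_prop
    refine hcont.continuousAt.eventually_const_lt ?_
    show 1 - η < ⟪f, f⟫
    rw [real_inner_self_eq_norm_sq, hf1]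
    linarith)
  have hF3 : ∀ x ∈ sphere (0 : E m) 1, ∃ f ∈ F, 1 - η < ⟪f, x⟫ := by
    intro x hx
    have := hF2 hx
    simp only [Set.mem_iUnion, exists_prop] at this
    exact this
  refine ⟨F, fun f hf => by simpa using hF1 f hf, fun x => ?_⟩
  by_cases hx : x = 0
  · obtain ⟨f, hf, -⟩ := hF3 (e0 m) (by simp [norm_e0])
    exact ⟨f, hf, by simp [hx]⟩
  · have hn : 0 < ‖x‖ := norm_pos_iff.2 hx
    obtain ⟨f, hf, h1⟩ := hF3 (‖x‖⁻¹ • x) (by
      rw [mem_sphere_zero_iff_norm, norm_smul, norm_inv, norm_norm, inv_mul_cancel₀ hn.ne'])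
    refine ⟨f, hf, ?_⟩
    rw [inner_smul_right] at h1
    have h2 : (1 - η) * ‖x‖ < ‖x‖⁻¹ * ⟪f, x⟫ * ‖x‖ := mul_lt_mul_of_pos_right h1 hn
    have h3 : ‖x‖⁻¹ * ⟪f, x⟫ * ‖x‖ = ⟪f, x⟫ := by field_simp
    rw [h3] at h2
    exact h2.le

theorem part3 (m K : ℕ) (ρ : ℝ) (hm : 1 ≤ m) (hρ : 0 < ρ) :
    ∃ ζ : ℝ, 0 < ζ ∧ ∃ F : Finset (E m), F.card = K ∧
    (∀ f ∈ F, ‖f‖ = 1 ∧ 1 - ρ ≤ ⟪f, e0 m⟫) ∧ ∀ f ∈ F, ∀ f' ∈ F, f ≠ f' → ζ < ‖f - f'‖ := by
  classical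
  let i1 : Fin (m + 1) := ⟨1, by omega⟩
  have hi : i1 ≠ 0 := by
    intro h
    have := congrArg Fin.val h
    simp [i1] at this
  set e1 : E m := EuclideanSpace.single i1 1 with he1
  have hn1 : ‖e1‖ = 1 := by simp [he1]
  have h01 : ⟪e0 m, e1⟫ = 0 := by
    simp [he1, e0, EuclideanSpace.inner_single_left, hi.symm]
  set t : ℝ := min 1 (Real.sqrt ρ) with ht
  have ht0 : 0 < t := lt_min one_pos (Real.sqrt_pos.2 hρ)
  have ht1 : t ≤ 1 := min_le_left _ _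
  have ht2 : t ^ 2 ≤ ρ := by
    have h1 : t ≤ Real.sqrt ρ := min_le_right _ _
    calc t ^ 2 ≤ (Real.sqrt ρ) ^ 2 := pow_le_pow_left₀ ht0.le h1 2
      _ = ρ := Real.sq_sqrt hρ.le
  let θ : ℕ → ℝ := fun k => (k : ℝ) * (t / (K + 1))
  have hK : (0 : ℝ) < (K : ℝ) + 1 := by positivity
  have hs0 : 0 < t / ((K : ℝ) + 1) := by positivity
  have hθ0 : ∀ k, 0 ≤ θ k := fun k => by positivity
  have hθ1 : ∀ k, k < K → θ k ≤ t := by
    intro k hk
    have : (k : ℝ) ≤ (K : ℝ) + 1 := by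
      have : (k : ℝ) < K := by exact_mod_cast hk
      linarith
    calc (k : ℝ) * (t / (K + 1)) ≤ ((K : ℝ) + 1) * (t / (K + 1)) :=
          mul_le_mul_of_nonneg_right this hs0.le
      _ = t := by field_simp
  let g : ℕ → E m := fun k => Real.cos (θ k) • e0 m + Real.sin (θ k) • e1
  have hg0 : ∀ k, ⟪g k, e0 m⟫ = Real.cos (θ k) := by
    intro k
    simp only [g]
    rw [inner_add_left, inner_smul_left, inner_smul_left, real_inner_self_eq_norm_sq, norm_e0,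
      real_inner_comm, h01]
    simp
  have hgn : ∀ k, ‖g k‖ = 1 := by
    intro k
    have h1 : ‖g k‖ ^ 2 = 1 := by
      simp only [g]
      rw [norm_add_sq_real, norm_smul, norm_smul, norm_e0, hn1, inner_smul_left, inner_smul_right,
        h01, mul_one, mul_one, Real.norm_eq_abs, Real.norm_eq_abs, sq_abs, sq_abs]
      simp
    have h2 : 0 ≤ ‖g k‖ := norm_nonneg _
    nlinarith
  have hinj : Set.InjOn g (Finset.range K : Finset ℕ) := by
    intro k hk l hl hkl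
    have hk' := Finset.mem_range.1 (Finset.mem_coe.1 hk)
    have hl' := Finset.mem_range.1 (Finset.mem_coe.1 hl)
    have h1 : Real.cos (θ k) = Real.cos (θ l) := by
      rw [← hg0, ← hg0, hkl]
    have hpi := Real.pi_gt_three
    have h2 := Real.injOn_cos ⟨hθ0 k, by linarith [hθ1 k hk']⟩ ⟨hθ0 l, by linarith [hθ1 l hl']⟩ h1
    have h3 : (k : ℝ) = (l : ℝ) := mul_right_cancel₀ hs0.ne' h2
    exact_mod_cast h3
  set F : Finset (E m) := (Finset.range K).image g with hF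
  have hev : ∀ᶠ ζ : ℝ in 𝓝[>] 0, ∀ f ∈ F, ∀ f' ∈ F, f ≠ f' → ζ < ‖f - f'‖ := by
    rw [Filter.eventually_all_finset]
    intro f _
    rw [Filter.eventually_all_finset]
    intro f' _
    by_cases hff : f = f'
    · exact Filter.Eventually.of_forall fun ζ h => absurd hff h
    · have h1 : 0 < ‖f - f'‖ := norm_pos_iff.2 (sub_ne_zero.2 hff)
      have h2 : ∀ᶠ ζ : ℝ in 𝓝[>] 0, ζ < ‖f - f'‖ :=
        nhdsWithin_le_nhds (Iio_mem_nhds h1)
      exact h2.mono fun ζ h _ => h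
  obtain ⟨ζ, hζ1, hζ2⟩ := (hev.and self_mem_nhdsWithin).exists
  refine ⟨ζ, hζ2, F, ?_, ?_, hζ1⟩
  · rw [hF, Finset.card_image_of_injOn hinj, Finset.card_range]
  · intro f hf
    obtain ⟨k, hk, rfl⟩ := Finset.mem_image.1 hf
    refine ⟨hgn k, ?_⟩
    rw [hg0]
    have h1 := Real.one_sub_sq_div_two_le_cos (x := θ k)
    have h2 := hθ1 k (Finset.mem_range.1 hk)
    have h3 := hθ0 k
    have h4 : θ k ^ 2 ≤ t ^ 2 := pow_le_pow_left₀ h3 h2 2
    linarith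

end Lin25

theorem s_lin : S_LIN := ⟨Lin25.part1, Lin25.part2, Lin25.part3⟩

end Pool.Agent.H948.HS
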